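import Pool.Agent.X170.PC.Stm

/-! Project PC: decomposition of 231-avoiding words by the position of the maximum. -/

set_option autoImplicit false

namespace Pool.Agent.X4.PC

open Pool.Agent.X170.PC

theorem fin_B (n : ℕ) : (B n).Finite := by
  have h : ((fun l : List (Fin n) => List.map Fin.val l) ''
      {l : List (Fin n) | l.length = n}).Finite :=
    (List.finite_length_eq (Fin n) n).image _
  refine h.subset ?_
  rintro w ⟨hl, ⟨_, hb, _⟩, _⟩
  refine ⟨w.attach.map (fun x => ⟨x.1, by have := hb x.1 x.2; omega⟩), ?_, ?_⟩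
  · simpa using hl
  · simp [List.map_map, Function.comp_def]

theorem fin_C (n : ℕ) : (C n).Finite := (fin_B n).subset fun _ h => h.1

theorem g_inj {w : List ℕ} (h : w.Nodup) {i j : ℕ} (hi : i < w.length) (hj : j < w.length)
    (e : g w i = g w j) : i = j := by
  rw [g, g, List.getD_eq_getElem _ _ hi, List.getD_eq_getElem _ _ hj] at e
  exact (List.Nodup.getElem_inj_iff h).1 e

theorem g_mem {w : List ℕ} {i : ℕ} (hi : i < w.length) : g w i ∈ w := by
  rw [g, List.getD_eq_getElem _ _ hi]
  exact List.getElem_mem hi

theorem mem_g {w : List ℕ} {a : ℕ} (h : a ∈ w) : ∃ i < w.length, g w i = a := by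
  obtain ⟨i, hi, e⟩ := List.getElem_of_mem h
  exact ⟨i, hi, by rw [g, List.getD_eq_getElem _ _ hi, e]⟩

theorem g_surj {w : List ℕ} (h : w.Nodup) (hb : ∀ a ∈ w, a < w.length) {a : ℕ}
    (ha : a < w.length) : ∃ i < w.length, g w i = a := by
  have hinj : Function.Injective (fun i : Fin w.length =>
      (⟨g w i, hb _ (g_mem i.2)⟩ : Fin w.length)) := by
    intro i j e
    exact Fin.ext (g_inj h i.2 j.2 (by simpa using e))
  obtain ⟨i, hi⟩ := (Finite.injective_iff_surjective.1 hinj) ⟨a, ha⟩
  exact ⟨i, i.2, by simpa using hi⟩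

theorem g_take {w : List ℕ} {j i : ℕ} (h : i < j) : g (w.take j) i = g w i := by
  simp [g, List.getD_eq_getElem?_getD, List.getElem?_take, h]

theorem g_md (w : List ℕ) (j i : ℕ) : g ((w.drop j).map (· - j)) i = g w (j + i) - j := by
  simp only [g, List.getD_eq_getElem?_getD, List.getElem?_map, List.getElem?_drop]
  cases w[j + i]? <;> simp

theorem key {n : ℕ} (hn : 1 ≤ n) {w : List ℕ} (hw : w ∈ B n) :
    ∃ k < n, ∃ c ∈ C (k + 1), ∃ b ∈ B (n - (k + 1)), b ++ c.map (· + (n - (k + 1))) = w := by
  obtain ⟨hl, ⟨hnd, hb, hc⟩, hav⟩ := hw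
  obtain ⟨j, hj, hjm⟩ := g_surj hnd hb (a := n - 1) (by omega)
  rw [hl] at hj
  have bd : ∀ i, i < n → g w i < n := fun i hi => hl ▸ hb _ (g_mem (by omega))
  have lt2 : ∀ i, i < j → g w i < g w j := by
    intro i hi
    have h1 := bd i (by omega)
    have h2 : g w i ≠ g w j := fun e => by
      have := g_inj hnd (by omega) (by omega) e
      omega
    omega
  have lt3 : ∀ i, i < j → ∀ k, j ≤ k → k < n → g w i < g w k := by
    intro i hi k hk hkn
    rcases Nat.eq_or_lt_of_le hk with h | h
    · rw [← h]; exact lt2 i hi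
    · have h1 := hav i j k hi h (by omega)
      have h2 := lt2 i hi
      have h3 : g w i ≠ g w k := fun e => by
        have := g_inj hnd (by omega) (by omega) e
        omega
      by_contra h4
      exact h1 ⟨by omega, h2⟩
  have small : ∀ i, i < j → g w i < j := by
    intro i hi
    have h1 : (Finset.Ico j n).card ≤ (Finset.Ioo (g w i) n).card := by
      apply Finset.card_le_card_of_injOn (g w)
      · intro k hk
        simp only [Finset.coe_Ico, Set.mem_Ico] at hk
        simp only [Finset.coe_Ioo, Set.mem_Ioo]
        exact ⟨lt3 i hi k hk.1 hk.2, bd k hk.2⟩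
      · intro a ha b hb' e
        simp only [Finset.coe_Ico, Set.mem_Ico] at ha hb'
        exact g_inj hnd (by omega) (by omega) e
    rw [Nat.card_Ico, Nat.card_Ioo] at h1
    omega
  have large : ∀ k, j ≤ k → k < n → j ≤ g w k := by
    intro k hk hkn
    have h1 : (Finset.range j).card ≤ (Finset.range (g w k)).card := by
      apply Finset.card_le_card_of_injOn (g w)
      · intro i hi
        simp only [Finset.coe_range, Set.mem_Iio] at hi ⊢
        exact lt3 i hi k hk hkn
      · intro a ha b hb' e
        simp only [Finset.coe_range, Set.mem_Iio] at ha hb'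
        exact g_inj hnd (by omega) (by omega) e
    simpa using h1
  have e1 : n - 1 - j + 1 = n - j := by omega
  have e2 : n - (n - j) = j := by omega
  have lt : (w.take j).length = j := by rw [List.length_take]; omega
  have ld : ((w.drop j).map (· - j)).length = n - j := by
    rw [List.length_map, List.length_drop]; omega
  have dl : ∀ a ∈ w.drop j, j ≤ a ∧ a < n := by
    intro a ha
    obtain ⟨i, hi, rfl⟩ := List.getElem_of_mem ha
    rw [List.length_drop] at hi
    have h1 : (w.drop j)[i] = g w (j + i) := by
      rw [List.getElem_drop, g, List.getD_eq_getElem _ _ (by omega)]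
    rw [h1]
    exact ⟨large _ (by omega) (by omega), bd _ (by omega)⟩
  refine ⟨n - 1 - j, by omega, (w.drop j).map (· - j), ?_, w.take j, ?_, ?_⟩
  · rw [e1]
    refine ⟨⟨ld, ⟨?_, ?_, ?_⟩, ?_⟩, ?_⟩
    · refine (List.nodup_map_iff_inj_on (hnd.sublist (List.drop_sublist j w))).2 ?_
      intro x hx y hy e
      have h1 := dl x hx
      have h2 := dl y hy
      omega
    · intro a ha
      rw [ld]
      obtain ⟨x, hx, rfl⟩ := List.mem_map.1 ha
      have h1 := dl x hx
      omega
    · intro i hi
      rw [ld] at hi
      simp only [g_md]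
      have h1 := large (j + i) (by omega) (by omega)
      have h2 := bd (j + i) (by omega)
      have e3 : j + (g w (j + i) - j) = g w (j + i) := by omega
      rw [e3]
      have h3 := large _ h1 h2
      have e4 : j + (g w (g w (j + i)) - j) = g w (g w (j + i)) := by omega
      rw [e4]
      rcases hc (j + i) (by omega) with h | h
      · left; rw [h]; omega
      · right; rw [h]; omega
    · intro a b c hab hbc hcl
      rw [ld] at hcl
      simp only [g_md]
      intro ⟨h1, h2⟩
      refine hav (j + a) (j + b) (j + c) (by omega) (by omega) (by omega) ⟨?_, ?_⟩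
      · have := large (j + c) (by omega) (by omega)
        omega
      · omega
    · rw [g_md, Nat.add_zero, hjm]
      omega
  · rw [e1, e2]
    refine ⟨lt, ⟨hnd.sublist (List.take_sublist j w), ?_, ?_⟩, ?_⟩
    · intro a ha
      rw [lt]
      obtain ⟨i, hi, rfl⟩ := mem_g ha
      rw [lt] at hi
      rw [g_take hi]
      exact small i hi
    · intro i hi
      rw [lt] at hi
      have h1 := small i hi
      have h2 := small _ h1
      rw [g_take hi, g_take h1, g_take h2]
      exact hc i (by omega)
    · intro a b c hab hbc hcl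
      rw [lt] at hcl
      rw [g_take (by omega : a < j), g_take (by omega : b < j), g_take hcl]
      exact hav a b c hab hbc (by omega)
  · rw [e1, e2, List.map_map]
    have : (w.drop j).map ((· + j) ∘ (· - j)) = w.drop j := by
      conv_rhs => rw [← List.map_id (w.drop j)]
      apply List.map_congr_left
      intro a ha
      have := dl a ha
      simp only [Function.comp_apply, id]
      omega
    rw [this, List.take_append_drop]

theorem t_U1 : S_U1 := by
  classical
  intro n hn
  let f : ℕ → List ℕ × List ℕ → List ℕ := fun k x => x.2 ++ x.1.map (· + (n - (k + 1)))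
  have h : (fin_B n).toFinset ⊆ (Finset.range n).biUnion (fun k =>
      ((fin_C (k + 1)).toFinset ×ˢ (fin_B (n - (k + 1))).toFinset).image (f k)) := by
    intro w hw
    rw [Set.Finite.mem_toFinset] at hw
    obtain ⟨k, hk, c, hc, b, hb, e⟩ := key hn hw
    rw [Finset.mem_biUnion]
    refine ⟨k, Finset.mem_range.2 hk, Finset.mem_image.2 ⟨(c, b), ?_, e⟩⟩
    rw [Finset.mem_product, Set.Finite.mem_toFinset, Set.Finite.mem_toFinset]
    exact ⟨hc, hb⟩
  rw [Set.ncard_eq_toFinset_card _ (fin_B n)]
  refine (Finset.card_le_card h).trans (Finset.card_biUnion_le.trans ?_)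
  refine Finset.sum_le_sum fun k _ => ?_
  rw [Set.ncard_eq_toFinset_card _ (fin_C (k + 1)),
    Set.ncard_eq_toFinset_card _ (fin_B (n - (k + 1))), ← Finset.card_product]
  exact Finset.card_image_le

end Pool.Agent.X4.PC
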